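import Mathlib
import Pool.Agent.Helper34.ZP.G8
import Pool.Agent.Helper34.ZP.NilLaw

/-!
# From the even powers to all powers
-/

universe u v w t

open CategoryTheory TensorProduct

namespace Pool.Agent.Helper10.PR

open Pool.Agent.Helper10 Pool.Agent.Helper11.Iso SmProjVar SPre Pool.Agent.Helper34.ZP

variable {k : Type u} [Field k] {K : Type t} [Field K] {Ω : Type v} [Field Ω] [Algebra K Ω]
  {P : SPre.{u, v, w, t} k K Ω}

/-- from the even powers to all powers, for a power of the exponent -/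
theorem all_of_even_pow [CharZero Ω] (hpt : ∀ Y, 1 ≤ nr P Y) (X : SmProjVar k) {C α : ℝ}
    (hC : 0 < C) (hα : 0 < α)
    (h : ∀ l : ℕ, (nr P (X.selfProd (2 * l + 1)) : ℝ) * ((l : ℝ) + 2) ^ α ≤
      C * hr P (X.selfProd (2 * l + 1))) (n : ℕ) :
    (nr P (X.selfProd n) : ℝ) * ((n : ℝ) + 2) ^ α ≤
      ((2 : ℝ) ^ α * (C + 1) * Module.finrank Ω (P.H X)) * hr P (X.selfProd n) := by
  have hb : (1 : ℝ) ≤ Module.finrank Ω (P.H X) := by exact_mod_cast one_le_finrank hpt X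
  have h30 : (nr P (X.selfProd (2 * 0)) : ℝ) ≤ Module.finrank Ω (P.H X) := by
    have h2 := nr_le_pow (P := P) X (2 * 0)
    rw [mul_zero, zero_add, pow_one] at h2
    exact_mod_cast h2
  have hodd : ∀ l : ℕ, (nr P (X.selfProd (2 * (l + 1))) : ℝ) ≤
      Module.finrank Ω (P.H X) * nr P (X.selfProd (2 * l + 1)) := fun l => by
    exact_mod_cast odd_le X l
  set b : ℝ := (Module.finrank Ω (P.H X) : ℝ)
  have h2 : 0 < (2 : ℝ) ^ α := Real.rpow_pos_of_pos two_pos α
  have hnn : ∀ Y : SmProjVar k, (0 : ℝ) ≤ nr P Y := fun Y => Nat.cast_nonneg _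
  have hhn : ∀ Y : SmProjVar k, (0 : ℝ) ≤ hr P Y := fun Y => Nat.cast_nonneg _
  have hpow : ∀ l n : ℕ, n ≤ 2 * l + 2 →
      ((n : ℝ) + 2) ^ α ≤ (2 : ℝ) ^ α * ((l : ℝ) + 2) ^ α := by
    intro l n hn
    have hn' : (n : ℝ) ≤ 2 * l + 2 := by exact_mod_cast hn
    rw [← Real.mul_rpow two_pos.le (by positivity)]
    exact Real.rpow_le_rpow (by positivity) (by linarith) hα.le
  rcases Nat.even_or_odd' n with ⟨l, rfl | rfl⟩
  · rcases Nat.eq_zero_or_pos l with rfl | hl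
    · have h1 : (1 : ℝ) ≤ hr P (X.selfProd (2 * 0)) := by
        have h2 : nr P (X.selfProd (2 * 0)) ≤ hr P (X.selfProd (2 * 0)) := rdim_le _ _
        exact_mod_cast (hpt _).trans h2
      have h3 : (nr P (X.selfProd (2 * 0)) : ℝ) ≤ b := h30
      have h4 : (((2 * 0 : ℕ) : ℝ) + 2) ^ α = (2 : ℝ) ^ α := by norm_num
      rw [h4]
      have h5 : (nr P (X.selfProd (2 * 0)) : ℝ) * 2 ^ α ≤ b * 2 ^ α :=
        mul_le_mul_of_nonneg_right h3 h2.le
      have h6 : b * 2 ^ α ≤ 2 ^ α * (C + 1) * b := by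
        have : 0 ≤ 2 ^ α * C * b := by positivity
        nlinarith
      have h7 : 2 ^ α * (C + 1) * b * 1 ≤ 2 ^ α * (C + 1) * b * hr P (X.selfProd (2 * 0)) :=
        mul_le_mul_of_nonneg_left h1 (by positivity)
      linarith
    · obtain ⟨l, rfl⟩ : ∃ l', l = l' + 1 := ⟨l - 1, by omega⟩
      have h5 := hr_le_succ (P := P) X (2 * l + 1)
      have e5 : 2 * l + 1 + 1 = 2 * (l + 1) := by ring
      rw [e5] at h5
      have h5' : (hr P (X.selfProd (2 * l + 1)) : ℝ) ≤ hr P (X.selfProd (2 * (l + 1))) := by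
        exact_mod_cast h5
      have h6 : (nr P (X.selfProd (2 * (l + 1))) : ℝ) ≤ b * nr P (X.selfProd (2 * l + 1)) :=
        hodd l
      have h7 := hpow l (2 * (l + 1)) (by omega)
      have h8 := h l
      have h9 : 0 ≤ ((l : ℝ) + 2) ^ α := Real.rpow_nonneg (by positivity) α
      calc (nr P (X.selfProd (2 * (l + 1))) : ℝ) * (((2 * (l + 1) : ℕ) : ℝ) + 2) ^ α
          ≤ (b * nr P (X.selfProd (2 * l + 1))) * ((2 : ℝ) ^ α * ((l : ℝ) + 2) ^ α) :=
            mul_le_mul h6 h7 (Real.rpow_nonneg (by positivity) α) (by positivity)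
        _ = ((2 : ℝ) ^ α * b) * (nr P (X.selfProd (2 * l + 1)) * ((l : ℝ) + 2) ^ α) := by ring
        _ ≤ ((2 : ℝ) ^ α * b) * (C * hr P (X.selfProd (2 * l + 1))) :=
            mul_le_mul_of_nonneg_left h8 (by positivity)
        _ ≤ ((2 : ℝ) ^ α * b) * ((C + 1) * hr P (X.selfProd (2 * (l + 1)))) := by
            refine mul_le_mul_of_nonneg_left ?_ (by positivity)
            exact mul_le_mul (by linarith) h5' (hhn _) (by positivity)
        _ = ((2 : ℝ) ^ α * (C + 1) * b) * hr P (X.selfProd (2 * (l + 1))) := by ring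
  · have h7 := hpow l (2 * l + 1) (by omega)
    have h8 := h l
    calc (nr P (X.selfProd (2 * l + 1)) : ℝ) * (((2 * l + 1 : ℕ) : ℝ) + 2) ^ α
        ≤ nr P (X.selfProd (2 * l + 1)) * ((2 : ℝ) ^ α * ((l : ℝ) + 2) ^ α) :=
          mul_le_mul_of_nonneg_left h7 (hnn _)
      _ = (2 : ℝ) ^ α * (nr P (X.selfProd (2 * l + 1)) * ((l : ℝ) + 2) ^ α) := by ring
      _ ≤ (2 : ℝ) ^ α * (C * hr P (X.selfProd (2 * l + 1))) :=
          mul_le_mul_of_nonneg_left h8 h2.le
      _ ≤ (2 : ℝ) ^ α * ((C + 1) * b * hr P (X.selfProd (2 * l + 1))) := by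
          refine mul_le_mul_of_nonneg_left ?_ h2.le
          refine mul_le_mul_of_nonneg_right ?_ (hhn _)
          nlinarith
      _ = ((2 : ℝ) ^ α * (C + 1) * b) * hr P (X.selfProd (2 * l + 1)) := by ring

end Pool.Agent.Helper10.PR
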