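import Mathlib
import Pool.Agent.Helper11.ZQ.DimForm
import Pool.Agent.Helper13.PR.Poly

/-!
# The polynomial rate for all varieties
-/

universe u v w

open CategoryTheory Filter Topology

namespace Pool.Agent.Helper10.PR

open Pool.Agent.Helper10 Pool.Agent.Helper11 SmProjVar Pool.Agent.Helper59.ZO
  Pool.Agent.Helper59.ZP Pool.Agent.Helper11.ZQ

/-- `e N` does not tend to zero as fast as a power of `N`: for all `t > 0` the product
`e N * N ^ t` tends to infinity. -/
def SlowerThanPowers (e : ℕ → ℝ) : Prop :=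
  ∀ t : ℝ, 0 < t → Tendsto (fun N => e N * (N : ℝ) ^ t) atTop atTop

lemma slowerThanPowers_const {c : ℝ} (hc : 0 < c) : SlowerThanPowers fun _ => c := fun _ ht =>
  ((tendsto_rpow_atTop ht).comp tendsto_natCast_atTop_atTop).const_mul_atTop hc

lemma exists_large_pow {e : ℕ → ℝ} (he : SlowerThanPowers e) {d : ℕ} (hd : 1 ≤ d) {α : ℝ}
    (hα : 0 < α) (C : ℝ) : ∃ n : ℕ, C < e ((n + 1) * d) * ((n : ℝ) + 2) ^ α := by
  have hd' : (1 : ℝ) ≤ d := by exact_mod_cast hd
  have hdα : 0 < (d : ℝ) ^ α := Real.rpow_pos_of_pos (by linarith) α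
  obtain ⟨N, hN⟩ := eventually_atTop.1 ((he α hα).eventually_gt_atTop ((d : ℝ) ^ α * (|C| + 1)))
  refine ⟨N, ?_⟩
  have h1 := hN ((N + 1) * d) (by nlinarith)
  have hN0 : (0 : ℝ) ≤ N := Nat.cast_nonneg N
  have h2 : (((N + 1) * d : ℕ) : ℝ) ^ α ≤ (d : ℝ) ^ α * ((N : ℝ) + 2) ^ α := by
    rw [← Real.mul_rpow (by linarith) (by linarith)]
    refine Real.rpow_le_rpow (Nat.cast_nonneg _) ?_ hα.le
    push_cast
    nlinarith
  have h0 : 0 ≤ (((N + 1) * d : ℕ) : ℝ) ^ α := Real.rpow_nonneg (Nat.cast_nonneg _) α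
  have hC : 0 ≤ |C| := abs_nonneg C
  have hpos : 0 < e ((N + 1) * d) := by
    by_contra hcon
    have h6 : e ((N + 1) * d) * (((N + 1) * d : ℕ) : ℝ) ^ α ≤ 0 :=
      mul_nonpos_of_nonpos_of_nonneg (not_lt.mp hcon) h0
    nlinarith
  have h7 : e ((N + 1) * d) * (((N + 1) * d : ℕ) : ℝ) ^ α ≤
      (d : ℝ) ^ α * (e ((N + 1) * d) * ((N : ℝ) + 2) ^ α) := by
    have := mul_le_mul_of_nonneg_left h2 hpos.le
    linarith
  have h9 := lt_of_mul_lt_mul_left (h1.trans_le h7) hdα.le
  have := le_abs_self C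
  linarith

section

variable {k : Type u} [Field k] {K : Type v} [Field K] [CharZero K]
  {W : WeilCohomology.{u, v, w} k K}

/-- D for all varieties in terms of a proportion which may tend to zero, more slowly than all
negative powers of `dim Y`, under the sign conjecture. -/
theorem all_iff_pow_of
    (hrate : ∀ X : SmProjVar k, ∃ C α : ℝ, 0 < C ∧ 0 < α ∧
      (¬ W.StandardD (X.selfProd 0) → ∀ n : ℕ,
        (numCycRank W.toCohomologyData (X.selfProd n) : ℝ) * ((n : ℝ) + 2) ^ α ≤
          C * cycRank W.toCohomologyData (X.selfProd n))) :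
    (∀ Y, W.StandardD Y) ↔ ∃ e : ℕ → ℝ, SlowerThanPowers e ∧ ∀ Y,
      e Y.dim * cycRank W.toCohomologyData Y ≤ numCycRank W.toCohomologyData Y := by
  constructor
  · intro h
    refine ⟨fun _ => 1, slowerThanPowers_const one_pos, fun Y => ?_⟩
    rw [numCycRank_eq_of_standardD W (h Y), one_mul]
  · rintro ⟨e, he, h⟩ X
    rcases Nat.eq_zero_or_pos X.dim with h0 | h0
    · exact standardD_of_dim_eq_zero W X h0
    by_contra hD
    obtain ⟨C, α, hC, hα, hr⟩ := hrate X
    obtain ⟨n, hn⟩ := exists_large_pow he h0 hα C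
    have h1 := hr hD n
    have h2 := h (X.selfProd n)
    rw [dim_selfProd] at h2
    have hl : 0 < ((n : ℝ) + 2) ^ α := Real.rpow_pos_of_pos (by positivity) α
    have ha : (0 : ℝ) < cycRank W.toCohomologyData (X.selfProd n) := by
      exact_mod_cast (numCycRank_pos W (X.selfProd n)).trans (numCycRank_le W (X.selfProd n))
    have h3 : e ((n + 1) * X.dim) * cycRank W.toCohomologyData (X.selfProd n) *
        ((n : ℝ) + 2) ^ α ≤ C * cycRank W.toCohomologyData (X.selfProd n) :=
      (mul_le_mul_of_nonneg_right h2 hl.le).trans h1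
    nlinarith

open Pool.Agent.Helper34.ZP Pool.Agent.Helper11.Iso

/-- Under the sign conjecture for all varieties (for instance `k` finite and `H` the `l`-adic or
the crystalline cohomology): D for all varieties in terms of a proportion which may tend to zero,
more slowly than all negative powers of the dimension. -/
theorem all_iff_pow (hS : ∀ Y, SignConjecture W.toCohomologyData Y) :
    (∀ Y, W.StandardD Y) ↔ ∃ e : ℕ → ℝ, SlowerThanPowers e ∧ ∀ Y,
      e Y.dim * cycRank W.toCohomologyData Y ≤ numCycRank W.toCohomologyData Y := by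
  refine all_iff_pow_of fun X => ?_
  obtain ⟨C, α, hC, hα, h⟩ := Pool.Agent.Helper13.PR.poly_rate.{u, v, w, v}
    (betti W.toCohomologyData X) 0
  refine ⟨C, α, hC, hα, fun hD n => ?_⟩
  have h1 := h k K K (base W) (nr_base_pos W) X le_rfl (par_mem (hS X))
    (fun h => hD ((d_base W _).mp h)) n
  rw [nr_base, hr_base] at h1
  exact h1

end

end Pool.Agent.Helper10.PR
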